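import Mathlib

namespace Pool.Agent.Odp2

/-- Artin-Rees for a linear map. -/
theorem artin_rees {R M N : Type} [CommRing R] [IsNoetherianRing R] [AddCommGroup M] [Module R M]
    [AddCommGroup N] [Module R N] [Module.Finite R N] (I : Ideal R) (f : M →ₗ[R] N) :
    ∃ c : ℕ, ∀ (m : ℕ) (x : M), f x ∈ (I ^ m • ⊤ : Submodule R N) →
      ∃ y ∈ (I ^ (m - c) • ⊤ : Submodule R M), f y = f x := by
  obtain ⟨c, hc⟩ := I.exists_pow_inf_eq_pow_smul (LinearMap.range f)
  refine ⟨c, fun m x hx => ?_⟩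
  rcases le_total m c with h | h
  · refine ⟨x, ?_, rfl⟩
    rw [Nat.sub_eq_zero_of_le h, pow_zero, Ideal.one_eq_top, Submodule.top_smul]
    trivial
  · have h1 : f x ∈ (I ^ m • ⊤ ⊓ LinearMap.range f : Submodule R N) := ⟨hx, x, rfl⟩
    rw [hc m h] at h1
    have h2 : f x ∈ (I ^ (m - c) • LinearMap.range f : Submodule R N) :=
      Submodule.smul_mono le_rfl inf_le_right h1
    rw [← Submodule.map_top, ← Submodule.map_smul''] at h2
    obtain ⟨y, hy, hy2⟩ := h2
    exact ⟨y, hy, hy2⟩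

end Pool.Agent.Odp2
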