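import Mathlib

open scoped nonZeroDivisors

namespace Pool.Agent.Odp2

/-- A basis of the field extension inside `B`, its discriminant and the dual basis. -/
theorem free_basis {A B : Type} [CommRing A] [IsDomain A] [IsIntegrallyClosed A] [CharZero A]
    [CommRing B] [IsDomain B] [IsIntegrallyClosed B] [Algebra A B] [Module.Finite A B]
    (hinj : Function.Injective (algebraMap A B)) :
    ∃ (d : ℕ) (e : Fin d → B) (tr : B →ₗ[A] A) (T : Matrix (Fin d) (Fin d) A), 0 < d ∧
      (∀ i j, T i j = tr (e i * e j)) ∧ T.det ≠ 0 ∧
      (∀ c : Fin d → A, ∑ i, c i • e i = 0 → c = 0) ∧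
      (∀ b, T.det • b = ∑ i, tr ((∑ k, T.adjugate i k • e k) * b) • e i) ∧
      (∀ b, T.det * tr b = ∑ i, tr ((∑ k, T.adjugate i k • e k) * (b * e i))) := by
  classical
  have hfs : FaithfulSMul A B := (faithfulSMul_iff_algebraMap_injective A B).2 hinj
  let F := FractionRing A
  let K := FractionRing B
  have hABK : IsScalarTower A B K := inferInstance
  have hinjK : FaithfulSMul A K := by
    rw [faithfulSMul_iff_algebraMap_injective, IsScalarTower.algebraMap_eq A B K]
    exact (IsFractionRing.injective B K).comp hinj
  let : Algebra F K := FractionRing.liftAlgebra A K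
  have hAFK : IsScalarTower A F K := FractionRing.isScalarTower_liftAlgebra _ _
  have hloc : IsLocalization (Algebra.algebraMapSubmonoid B A⁰) K := inferInstance
  have hfd : FiniteDimensional F K := Module.Finite.of_isLocalization A B A⁰
  have hcF : CharZero F := charZero_of_injective_algebraMap (IsFractionRing.injective A F)
  have hAB : Algebra.IsIntegral A B := Algebra.IsIntegral.of_finite A B
  have hic : IsIntegralClosure B A K := IsIntegralClosure.of_isIntegrallyClosed _ _ _
  have htf : Module.IsTorsionFree A B := inferInstance
  obtain ⟨s, b₀, hb₀⟩ := FiniteDimensional.exists_is_basis_integral A F K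
  let b := b₀.reindex s.equivFin
  have hb : ∀ i, ∃ x : B, algebraMap B K x = b i := by
    intro i
    have h1 : IsIntegral A (b i) := by
      rw [Module.Basis.reindex_apply]
      exact hb₀ _
    exact IsIntegralClosure.isIntegral_iff.1 h1
  choose e he using hb
  let tr : B →ₗ[A] A := Algebra.intTrace A B
  have htr : ∀ x, algebraMap A F (tr x) = Algebra.trace F K (algebraMap B K x) := fun x =>
    Algebra.algebraMap_intTrace (A := A) (B := B) (K := F) (L := K) x
  let T : Matrix (Fin s.card) (Fin s.card) A := Matrix.of fun i j => tr (e i * e j)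
  have hT : ∀ i j, T i j = tr (e i * e j) := fun _ _ => rfl
  have hTF : (algebraMap A F).mapMatrix T = Algebra.traceMatrix F b := by
    ext i j
    rw [RingHom.mapMatrix_apply, Matrix.map_apply, hT, htr, map_mul, he, he]
    rfl
  have hdet : T.det ≠ 0 := by
    intro h
    have h1 := Algebra.discr_not_zero_of_basis F b
    rw [Algebra.discr_def, ← hTF, ← RingHom.map_det, h, map_zero] at h1
    exact h1 rfl
  -- the trace of `u_i x` is the determinant times the coordinate
  have hsm : ∀ (a : A) (x : B), algebraMap B K (a • x) = algebraMap A F a • algebraMap B K x := by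
    intro a x
    rw [Algebra.smul_def, map_mul, ← IsScalarTower.algebraMap_apply, algebraMap_smul,
      Algebra.smul_def]
  have huK : ∀ i, algebraMap B K (∑ k, T.adjugate i k • e k) =
      ∑ k, algebraMap A F (T.adjugate i k) • b k := by
    intro i
    rw [map_sum]
    refine Finset.sum_congr rfl fun k _ => ?_
    rw [hsm, he]
  have hcoord : ∀ (i : Fin s.card) (x : K),
      Algebra.trace F K ((∑ k, algebraMap A F (T.adjugate i k) • b k) * x) =
        algebraMap A F T.det * b.repr x i := by
    intro i x
    have h1 : ∀ j, Algebra.trace F K ((∑ k, algebraMap A F (T.adjugate i k) • b k) * b j) =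
        if i = j then algebraMap A F T.det else 0 := by
      intro j
      rw [Finset.sum_mul, map_sum]
      have h2 : ∀ k, Algebra.trace F K ((algebraMap A F (T.adjugate i k) • b k) * b j) =
          algebraMap A F (T.adjugate i k * T k j) := by
        intro k
        have h3 := congrFun (congrFun hTF k) j
        rw [RingHom.mapMatrix_apply, Matrix.map_apply] at h3
        rw [smul_mul_assoc, map_smul, smul_eq_mul, (algebraMap A F).map_mul, h3]
        rfl
      rw [Finset.sum_congr rfl fun k _ => h2 k, ← map_sum, ← Matrix.mul_apply,
        Matrix.adjugate_mul, Matrix.smul_apply, Matrix.one_apply]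
      split_ifs
      · rw [smul_eq_mul, mul_one]
      · rw [smul_zero, map_zero]
    conv_lhs => rw [← b.sum_repr x, Finset.mul_sum, map_sum]
    rw [Finset.sum_eq_single i]
    · rw [mul_smul_comm, map_smul, h1, if_pos rfl, smul_eq_mul, mul_comm]
    · intro j _ hj
      rw [mul_smul_comm, map_smul, h1, if_neg (Ne.symm hj), smul_zero]
    · intro h
      exact absurd (Finset.mem_univ i) h
  have hcB : ∀ (i : Fin s.card) (x : B), algebraMap A F (tr ((∑ k, T.adjugate i k • e k) * x)) =
      algebraMap A F T.det * b.repr (algebraMap B K x) i := by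
    intro i x
    rw [htr, map_mul, huK, hcoord]
  refine ⟨s.card, e, tr, T, ?_, hT, hdet, ?_, ?_, ?_⟩
  · rw [Nat.pos_iff_ne_zero]
    intro h
    have h1 : IsEmpty (Fin s.card) := by rw [h]; infer_instance
    have h2 := b.sum_repr (1 : K)
    rw [Finset.univ_eq_empty, Finset.sum_empty] at h2
    exact one_ne_zero h2.symm
  · intro c hc
    have h1 : ∑ i, algebraMap A F (c i) • b i = 0 := by
      rw [← map_zero (algebraMap B K), ← hc, map_sum]
      refine Finset.sum_congr rfl fun i _ => ?_
      rw [hsm, he]
    have h2 := Fintype.linearIndependent_iff.1 b.linearIndependent _ h1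
    funext i
    exact IsFractionRing.injective A F (by rw [h2 i, Pi.zero_apply, map_zero])
  · intro x
    apply IsFractionRing.injective B K
    rw [hsm, map_sum]
    conv_lhs => rw [← b.sum_repr (algebraMap B K x), Finset.smul_sum]
    refine Finset.sum_congr rfl fun i _ => ?_
    rw [hsm, he, hcB, smul_smul]
  · intro x
    apply IsFractionRing.injective A F
    rw [map_mul, htr, map_sum, Algebra.trace_eq_matrix_trace b, Matrix.trace, Finset.mul_sum]
    refine Finset.sum_congr rfl fun i _ => ?_
    rw [Matrix.diag_apply, Algebra.leftMulMatrix_eq_repr_mul, hcB, (algebraMap B K).map_mul, he]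

end Pool.Agent.Odp2
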