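import Pool.Agent.Odp2.Defs

open scoped ContDiff Topology ENNReal NNReal WithZero nonZeroDivisors
open Set MeasureTheory Filter MvPolynomial Pool.Agent.ODP

namespace Pool.Agent.Odp2

/-- Coordinates on the fibre over the point `w`. -/
structure FibCo (n d : ℕ) (B : Type) [CommRing B] [Algebra ℂ B] where
  y : Fin n → B
  e : Fin d → B
  w : Fin n → ℂ
  cw : B →ₗ[ℂ] (Fin d → ℂ)
  cw_y : ∀ j b, cw (y j * b) = w j • cw b
  cw_e : ∀ i, cw (e i) = Pi.single i 1
  sub_mem : ∀ b, b - ∑ i, cw b i • e i ∈ Ideal.span (Set.range fun j => y j - algebraMap ℂ B (w j))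

namespace FibCo

variable {n d : ℕ} {B : Type} [CommRing B] [Algebra ℂ B] (G : FibCo n d B)

/-- the ideal of the fibre -/
def I : Ideal B := Ideal.span (Set.range fun j => G.y j - algebraMap ℂ B (G.w j))

theorem mem_I (b : B) : b ∈ G.I ↔ G.cw b = 0 := by
  constructor
  · intro h
    obtain ⟨c, rfl⟩ := Ideal.mem_span_range_iff_exists_fun.1 h
    rw [map_sum]
    refine Finset.sum_eq_zero fun j _ => ?_
    have h1 : c j * (G.y j - algebraMap ℂ B (G.w j)) = G.y j * c j - G.w j • c j := by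
      rw [Algebra.smul_def]
      ring
    rw [h1, map_sub, G.cw_y, map_smul, sub_self]
  · intro h
    have h1 := G.sub_mem b
    rw [h] at h1
    simpa [I] using h1

/-- the matrix of the multiplication by `b` at `w` -/
noncomputable def mw (b : B) : Matrix (Fin d) (Fin d) ℂ :=
  Matrix.of fun i k => G.cw (b * G.e k) i

theorem cw_mul_left (a b : B) :
    G.cw (a * b) = ∑ j, G.cw b j • G.cw (a * G.e j) := by
  have h := (G.mem_I _).1 (Ideal.mul_mem_left _ a (G.sub_mem b))
  rw [mul_sub, map_sub, sub_eq_zero] at h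
  rw [h, Finset.mul_sum, map_sum]
  refine Finset.sum_congr rfl fun j _ => ?_
  rw [mul_smul_comm, map_smul]

theorem mw_mul (a b : B) : G.mw (a * b) = G.mw a * G.mw b := by
  ext i k
  rw [Matrix.mul_apply]
  simp only [mw, Matrix.of_apply]
  rw [mul_assoc, G.cw_mul_left a (b * G.e k)]
  simp only [Finset.sum_apply, Pi.smul_apply, smul_eq_mul]
  exact Finset.sum_congr rfl fun j _ => mul_comm _ _

theorem mw_one : G.mw 1 = 1 := by
  ext i k
  simp only [mw, Matrix.of_apply, one_mul, cw_e, Matrix.one_apply, Pi.single_apply]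

theorem mw_pow (b : B) (N : ℕ) : G.mw (b ^ N) = G.mw b ^ N := by
  induction N with
  | zero => rw [pow_zero, pow_zero, mw_one]
  | succ N ih => rw [pow_succ, mw_mul, ih, pow_succ]

theorem mw_of_mem {b : B} (h : b ∈ G.I) : G.mw b = 0 := by
  ext i k
  simp only [mw, Matrix.of_apply, Matrix.zero_apply]
  rw [(G.mem_I _).1 (Ideal.mul_mem_right _ _ h)]
  rfl

theorem trace_mw_of_pow_mem {b : B} {N : ℕ} (h : b ^ N ∈ G.I) :
    (G.mw b).trace = 0 := by
  have h1 : IsNilpotent (G.mw b) := ⟨N, by rw [← mw_pow, G.mw_of_mem h]⟩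
  exact (Matrix.isNilpotent_trace_of_isNilpotent h1).eq_zero

/-- the trace form at `w` -/
noncomputable def T : Matrix (Fin d) (Fin d) ℂ :=
  Matrix.of fun i j => (G.mw (G.e i * G.e j)).trace

theorem mem_of_pow_mem (hT : (G.T).det ≠ 0) {b : B} {N : ℕ}
    (h : b ^ N ∈ G.I) : b ∈ G.I := by
  rw [mem_I]
  apply Matrix.eq_zero_of_vecMul_eq_zero hT
  funext j
  have h1 : (b * G.e j) ^ N ∈ G.I := by
    rw [mul_pow]
    exact Ideal.mul_mem_right _ _ h
  have h2 := G.trace_mw_of_pow_mem h1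
  rw [Pi.zero_apply, ← h2]
  simp only [Matrix.vecMul, dotProduct, T, Matrix.of_apply, Matrix.trace, Matrix.diag, mw]
  rw [show (∑ i, G.cw b i * ∑ k, G.cw (G.e i * G.e j * G.e k) k) =
    ∑ k, ∑ i, G.cw b i * G.cw (G.e i * G.e j * G.e k) k by
      rw [Finset.sum_comm]
      exact Finset.sum_congr rfl fun i _ => Finset.mul_sum _ _ _]
  refine Finset.sum_congr rfl fun k _ => ?_
  rw [show b * G.e j * G.e k = (G.e j * G.e k) * b by ring, G.cw_mul_left (G.e j * G.e k) b]
  simp only [Finset.sum_apply, Pi.smul_apply, smul_eq_mul]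
  refine Finset.sum_congr rfl fun i _ => ?_
  rw [show G.e i * G.e j * G.e k = G.e j * G.e k * G.e i by ring]

theorem char_I {χ : Pt B} (hχ : proj G.y χ = G.w) {b : B} (h : b ∈ G.I) :
    χ b = 0 := by
  have h1 : G.I ≤ RingHom.ker χ := by
    rw [I, Ideal.span_le]
    rintro _ ⟨j, rfl⟩
    change χ _ = 0
    rw [map_sub, ← hχ]
    simp [proj]
  exact h1 h

theorem char_eq {χ : Pt B} (hχ : proj G.y χ = G.w) (b : B) :
    χ b = ∑ i, G.cw b i * χ (G.e i) := by
  have h := G.char_I hχ (G.sub_mem b)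
  rw [map_sub, sub_eq_zero] at h
  rw [h, map_sum]
  refine Finset.sum_congr rfl fun i _ => ?_
  rw [map_smul, smul_eq_mul]

theorem exists_pow_mem (b : B) (h : ∀ χ : Pt B, proj G.y χ = G.w → χ b = 0) :
    ∃ N : ℕ, b ^ N ∈ G.I := by
  classical
  by_contra hcon
  have h1 : b ∉ (G.I).radical := fun h => hcon h
  rw [Ideal.radical_eq_sInf, Submodule.mem_sInf] at h1
  push Not at h1
  obtain ⟨P, ⟨hIP, hP⟩, hbP⟩ := h1
  have hfin : Module.Finite ℂ (B ⧸ P) := by
    refine ⟨⟨Finset.univ.image fun i => Ideal.Quotient.mk P (G.e i), ?_⟩⟩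
    rw [eq_top_iff]
    rintro z -
    obtain ⟨b, rfl⟩ := Ideal.Quotient.mk_surjective z
    have h2 : Ideal.Quotient.mk P b = ∑ i, G.cw b i • Ideal.Quotient.mk P (G.e i) := by
      have h3 := hIP (G.sub_mem b)
      rw [← Ideal.Quotient.eq] at h3
      rw [h3, map_sum]
      rfl
    rw [h2]
    refine Submodule.sum_mem _ fun i _ => Submodule.smul_mem _ _ (Submodule.subset_span ?_)
    rw [Finset.coe_image]
    exact ⟨i, Finset.mem_coe.2 (Finset.mem_univ i), rfl⟩
  have hdom : IsDomain (B ⧸ P) := inferInstance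
  have hint : Algebra.IsIntegral ℂ (B ⧸ P) := Algebra.IsIntegral.of_finite _ _
  have hbij := IsAlgClosed.algebraMap_bijective_of_isIntegral (k := ℂ) (K := B ⧸ P)
  let E : ℂ ≃ₐ[ℂ] (B ⧸ P) := AlgEquiv.ofBijective (Algebra.ofId ℂ (B ⧸ P)) hbij
  let χ : Pt B := (E.symm : (B ⧸ P) →ₐ[ℂ] ℂ).comp (Ideal.Quotient.mkₐ ℂ P)
  have hχ : ∀ b, χ b = 0 ↔ b ∈ P := by
    intro b
    change E.symm (Ideal.Quotient.mk P b) = 0 ↔ _
    rw [map_eq_zero_iff _ E.symm.injective, Ideal.Quotient.eq_zero_iff_mem]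
  apply hbP
  rw [← hχ]
  apply h
  funext j
  have h3 := (hχ _).2 (hIP (Ideal.subset_span ⟨j, rfl⟩ : G.y j - algebraMap ℂ B (G.w j) ∈ G.I))
  rw [map_sub, sub_eq_zero] at h3
  rw [proj, h3, AlgHom.commutes]
  rfl

/-- the fibre over `w` -/
def Fb : Set (Pt B) := {χ | proj G.y χ = G.w}

theorem linInd :
    LinearIndependent ℂ (fun (χ : G.Fb) (i : Fin d) => (χ : Pt B) (G.e i)) := by
  have h2 := (linearIndependent_toLinearMap ℂ B ℂ).comp (fun χ : G.Fb => (χ : Pt B))
    Subtype.val_injective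
  let Ψ : (Fin d → ℂ) →ₗ[ℂ] (B →ₗ[ℂ] ℂ) :=
    { toFun := fun r => (∑ i, r i • LinearMap.proj i) ∘ₗ G.cw
      map_add' := fun r s => by
        ext b
        simp [add_mul, Finset.sum_add_distrib]
      map_smul' := fun c r => by
        ext b
        simp [mul_assoc, Finset.mul_sum] }
  refine LinearIndependent.of_comp Ψ ?_
  have h3 : (Ψ ∘ fun (χ : G.Fb) (i : Fin d) => (χ : Pt B) (G.e i)) =
      (AlgHom.toLinearMap : (B →ₐ[ℂ] ℂ) → B →ₗ[ℂ] ℂ) ∘ fun χ : G.Fb => (χ : Pt B) := by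
    funext χ
    ext b
    simp only [Function.comp_apply, Ψ, LinearMap.coe_mk, AddHom.coe_mk, LinearMap.comp_apply,
      LinearMap.sum_apply, LinearMap.smul_apply, LinearMap.proj_apply, smul_eq_mul,
      AlgHom.toLinearMap_apply]
    rw [G.char_eq χ.2 b]
    exact Finset.sum_congr rfl fun i _ => mul_comm _ _
  rw [h3]
  exact h2

theorem finite_Fb : Finite (G.Fb) :=
  (G.linInd).finite_of_isNoetherian

theorem card_Fb (hT : (G.T).det ≠ 0) : Nat.card (G.Fb) = d := by
  have hfin := G.finite_Fb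
  have := Fintype.ofFinite (G.Fb)
  rw [Nat.card_eq_fintype_card]
  apply le_antisymm
  · have h := (G.linInd).fintype_card_le_finrank
    rwa [Module.finrank_fin_fun] at h
  · let Φ : (Fin d → ℂ) →ₗ[ℂ] (G.Fb → ℂ) :=
      { toFun := fun c χ => ∑ i, c i * (χ : Pt B) (G.e i)
        map_add' := fun r s => by
          funext b
          simp [add_mul, Finset.sum_add_distrib]
        map_smul' := fun c r => by
          funext b
          simp [mul_assoc, Finset.mul_sum] }
    have hΦ : Function.Injective Φ := by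
      rw [← LinearMap.ker_eq_bot, LinearMap.ker_eq_bot']
      intro c hc
      obtain ⟨N, hN⟩ := G.exists_pow_mem (∑ i, c i • G.e i) (fun χ hχ => by
        have h5 : ∑ i, c i * χ (G.e i) = 0 := congrFun hc ⟨χ, hχ⟩
        rw [map_sum, ← h5]
        exact Finset.sum_congr rfl fun i _ => by rw [map_smul, smul_eq_mul])
      have h := (G.mem_I _).1 (G.mem_of_pow_mem hT hN)
      rw [map_sum] at h
      rw [← h]
      funext j
      simp [cw_e, Pi.single_apply]
    have h := LinearMap.finrank_le_finrank_of_injective hΦ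
    rwa [Module.finrank_fin_fun, Module.finrank_fintype_fun_eq_card] at h

theorem du_eq (hT : (G.T).det ≠ 0) {χ χ' : Pt B} (hχ : proj G.y χ = G.w)
    (hχ' : proj G.y χ' = G.w) :
    (χ = χ' → ∑ i, (∑ k, (G.T).adjugate i k * χ (G.e k)) * χ' (G.e i) = (G.T).det) ∧
    (χ ≠ χ' → ∑ i, (∑ k, (G.T).adjugate i k * χ (G.e k)) * χ' (G.e i) = 0) := by
  classical
  have hfin := G.finite_Fb
  have := Fintype.ofFinite (G.Fb)
  have hcard := G.card_Fb hT
  rw [Nat.card_eq_fintype_card] at hcard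
  let σ : Fin d ≃ G.Fb := (Fintype.equivFinOfCardEq hcard).symm
  let P : Matrix (Fin d) (Fin d) ℂ := Matrix.of fun a i => (σ a : Pt B) (G.e i)
  have hP : IsUnit P := by
    rw [← Matrix.linearIndependent_rows_iff_isUnit]
    exact (G.linInd).comp σ σ.injective
  have hPdet : IsUnit P.det := (Matrix.isUnit_iff_isUnit_det P).1 hP
  have hmw : ∀ b, P * G.mw b = Matrix.diagonal (fun a => (σ a : Pt B) b) * P := by
    intro b
    ext a k
    rw [Matrix.mul_apply, Matrix.diagonal_mul]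
    simp only [P, mw, Matrix.of_apply]
    rw [← map_mul, G.char_eq (σ a).2 (b * G.e k)]
    exact Finset.sum_congr rfl fun i _ => mul_comm _ _
  have htr : ∀ b, (G.mw b).trace = ∑ a, (σ a : Pt B) b := by
    intro b
    have h1 : G.mw b = P⁻¹ * (Matrix.diagonal (fun a => (σ a : Pt B) b) * P) := by
      rw [← hmw, ← Matrix.mul_assoc, Matrix.nonsing_inv_mul P hPdet, Matrix.one_mul]
    rw [h1, Matrix.trace_mul_comm, Matrix.mul_assoc, Matrix.mul_nonsing_inv P hPdet,
      Matrix.mul_one, Matrix.trace_diagonal]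
  have hTP : G.T = P.transpose * P := by
    ext i j
    rw [Matrix.mul_apply]
    simp only [T, Matrix.of_apply]
    rw [htr]
    exact Finset.sum_congr rfl fun a _ => map_mul _ _ _
  have hkey : P * (G.T).adjugate.transpose * P.transpose = (G.T).det • (1 : Matrix _ _ ℂ) := by
    rw [hTP, Matrix.adjugate_mul_distrib, Matrix.transpose_mul, Matrix.adjugate_transpose,
      Matrix.transpose_transpose, Matrix.det_mul, Matrix.det_transpose]
    rw [← Matrix.mul_assoc, Matrix.mul_adjugate, Matrix.mul_assoc, ← Matrix.transpose_mul,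
      Matrix.mul_adjugate]
    simp [smul_smul]
  have hent : ∀ a b, ∑ i, (∑ k, (G.T).adjugate i k * (σ a : Pt B) (G.e k)) *
      (σ b : Pt B) (G.e i) = (G.T).det * (1 : Matrix (Fin d) (Fin d) ℂ) a b := by
    intro a b
    have h := congrFun (congrFun hkey a) b
    rw [Matrix.smul_apply, smul_eq_mul] at h
    rw [← h, Matrix.mul_apply]
    refine Finset.sum_congr rfl fun i _ => ?_
    rw [Matrix.mul_apply, Matrix.transpose_apply]
    congr 1
    exact Finset.sum_congr rfl fun k _ => mul_comm _ _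
  obtain ⟨a, ha⟩ := σ.surjective ⟨χ, hχ⟩
  obtain ⟨b, hb⟩ := σ.surjective ⟨χ', hχ'⟩
  have ha' : χ = (σ a : Pt B) := by rw [ha]
  have hb' : χ' = (σ b : Pt B) := by rw [hb]
  rw [ha', hb', hent a b]
  constructor
  · intro h
    have hab : a = b := σ.injective (Subtype.ext h)
    rw [hab, Matrix.one_apply_eq, mul_one]
  · intro h
    have hab : a ≠ b := fun hab => h (by rw [hab])
    rw [Matrix.one_apply_ne hab, mul_zero]

/-- the trace at the fibre is the sum over the fibre -/
theorem trace_mw {hT : G.T.det ≠ 0} (S : Finset (Pt B)) (hS : ∀ χ, χ ∈ S ↔ proj G.y χ = G.w)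
    (b : B) : (G.mw b).trace = ∑ χ ∈ S, χ b := by
  classical
  have hfin := G.finite_Fb
  have := Fintype.ofFinite G.Fb
  have hcard := G.card_Fb hT
  rw [Nat.card_eq_fintype_card] at hcard
  let σ : Fin d ≃ G.Fb := (Fintype.equivFinOfCardEq hcard).symm
  let P : Matrix (Fin d) (Fin d) ℂ := Matrix.of fun a i => (σ a : Pt B) (G.e i)
  have hP : IsUnit P := by
    rw [← Matrix.linearIndependent_rows_iff_isUnit]
    exact G.linInd.comp σ σ.injective
  have hPdet : IsUnit P.det := (Matrix.isUnit_iff_isUnit_det P).1 hP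
  have hmw : P * G.mw b = Matrix.diagonal (fun a => (σ a : Pt B) b) * P := by
    ext a k
    rw [Matrix.mul_apply, Matrix.diagonal_mul]
    simp only [P, mw, Matrix.of_apply]
    rw [← map_mul, G.char_eq (σ a).2 (b * G.e k)]
    exact Finset.sum_congr rfl fun i _ => mul_comm _ _
  have h1 : G.mw b = P⁻¹ * (Matrix.diagonal (fun a => (σ a : Pt B) b) * P) := by
    rw [← hmw, ← Matrix.mul_assoc, Matrix.nonsing_inv_mul P hPdet, Matrix.one_mul]
  rw [h1, Matrix.trace_mul_comm, Matrix.mul_assoc, Matrix.mul_nonsing_inv P hPdet,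
    Matrix.mul_one, Matrix.trace_diagonal]
  refine Finset.sum_bij (fun a _ => (σ a : Pt B)) ?_ ?_ ?_ ?_
  · intro a _
    exact (hS _).2 (σ a).2
  · intro a _ a' _ h
    exact σ.injective (Subtype.ext h)
  · intro χ hχ
    obtain ⟨a, ha⟩ := σ.surjective ⟨χ, (hS χ).1 hχ⟩
    exact ⟨a, Finset.mem_univ _, by rw [ha]⟩
  · intro a _
    rfl

end FibCo

end Pool.Agent.Odp2
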