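import Pool.Agent.Odp2.Free.Refl
import Pool.Agent.Odp2.Free.AR

open MvPolynomial

namespace Pool.Agent.Odp2

theorem lift_mem_smul {R : Type} [CommRing R] {k : ℕ} (J : Ideal R) (v : Fin k → R) :
    v ∈ (J • ⊤ : Submodule R (Fin k → R)) ↔ ∀ j, v j ∈ J := by
  constructor
  · intro h j
    induction h using Submodule.smul_induction_on' with
    | smul r hr x _ =>
      rw [Pi.smul_apply, smul_eq_mul]
      exact Ideal.mul_mem_right _ _ hr
    | add x _ y _ hx hy => exact Ideal.add_mem _ hx hy
  · intro h
    have h1 : v = ∑ j, v j • (Pi.single j (1 : R) : Fin k → R) := by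
      funext i
      rw [Finset.sum_apply, Finset.sum_eq_single i]
      · rw [Pi.smul_apply, Pi.single_eq_same, smul_eq_mul, mul_one]
      · intro j _ hj
        rw [Pi.smul_apply, Pi.single_eq_of_ne (Ne.symm hj), smul_zero]
      · intro hi
        exact absurd (Finset.mem_univ i) hi
    rw [h1]
    exact Submodule.sum_mem _ fun j _ => Submodule.smul_mem_smul (h j) trivial

/-- A vector which satisfies the syzygies modulo `J ^ M` is, modulo `J ^ (M - c)`, a vector
`(φ_j b)_j`; `b` can be chosen linearly. -/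
theorem lift_linear {R B : Type} [CommRing R] [IsNoetherianRing R] [Algebra ℂ R] [AddCommGroup B]
    [Module R B] [Module ℂ B] [IsScalarTower ℂ R B] {k L : ℕ} (A : Fin L → Fin k → R)
    (φ : Fin k → (B →ₗ[R] R))
    (hA : ∀ v : Fin k → R, (∀ l, ∑ j, A l j * v j = 0) → ∃ b : B, ∀ j, φ j b = v j)
    (J : Ideal R) : ∃ c : ℕ, ∀ M : ℕ, ∃ β : (Fin k → R) →ₗ[ℂ] B, ∀ p : Fin k → R,
      (∀ l, ∑ j, A l j * p j ∈ J ^ M) → ∀ j, φ j (β p) - p j ∈ J ^ (M - c) := by
  classical
  let f : (Fin k → R) →ₗ[R] (Fin L → R) :=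
    { toFun := fun v l => ∑ j, A l j * v j
      map_add' := by
        intro a b
        funext l
        rw [Pi.add_apply, ← Finset.sum_add_distrib]
        refine Finset.sum_congr rfl fun j _ => ?_
        rw [Pi.add_apply, mul_add]
      map_smul' := by
        intro p a
        funext l
        rw [RingHom.id_apply, Pi.smul_apply, smul_eq_mul, Finset.mul_sum]
        refine Finset.sum_congr rfl fun j _ => ?_
        rw [Pi.smul_apply, smul_eq_mul]
        ring }
  have hf : ∀ v l, f v l = ∑ j, A l j * v j := fun _ _ => rfl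
  obtain ⟨c, hc⟩ := artin_rees J f
  refine ⟨c, fun M => ?_⟩
  let W : Submodule ℂ (Fin k → R) :=
    { carrier := {p | ∀ l, f p l ∈ J ^ M}
      add_mem' := by
        intro a b ha hb l
        rw [map_add]
        exact Ideal.add_mem _ (ha l) (hb l)
      zero_mem' := by
        intro l
        rw [map_zero]
        exact Ideal.zero_mem _
      smul_mem' := by
        intro t a ha l
        have h1 : t • a = algebraMap ℂ R t • a := by rw [algebraMap_smul]
        rw [h1, map_smul]
        exact Ideal.mul_mem_left _ _ (ha l) }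
  have key : ∀ p : W, ∃ b : B, ∀ j, φ j b - (p : Fin k → R) j ∈ J ^ (M - c) := by
    intro p
    have h1 : f p ∈ (J ^ M • ⊤ : Submodule R (Fin L → R)) := (lift_mem_smul _ _).2 p.2
    obtain ⟨r, hr, hfr⟩ := hc M p h1
    obtain ⟨b, hb⟩ := hA ((p : Fin k → R) - r) (fun l => by
      have h2 := congrFun hfr l
      rw [hf, hf] at h2
      have h3 : ∑ j, A l j * ((p : Fin k → R) - r) j =
          ∑ j, A l j * (p : Fin k → R) j - ∑ j, A l j * r j := by
        rw [← Finset.sum_sub_distrib]
        refine Finset.sum_congr rfl fun j _ => ?_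
        rw [Pi.sub_apply, mul_sub]
      rw [h3, h2, sub_self])
    refine ⟨b, fun j => ?_⟩
    rw [hb j, Pi.sub_apply, sub_sub_cancel_left]
    exact (Ideal.neg_mem_iff _).2 ((lift_mem_smul _ _).1 hr j)
  choose s hs using key
  let bs := Module.Basis.ofVectorSpace ℂ W
  let β₀ : W →ₗ[ℂ] B := bs.constr ℂ fun i => s (bs i)
  have hβ₀ : ∀ p : W, ∀ j, φ j (β₀ p) - (p : Fin k → R) j ∈ J ^ (M - c) := by
    intro p j
    let U : Submodule ℂ W :=
      { carrier := {p | φ j (β₀ p) - (p : Fin k → R) j ∈ J ^ (M - c)}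
        add_mem' := by
          intro a b ha hb
          have h1 : φ j (β₀ (a + b)) - ((a + b : W) : Fin k → R) j =
              (φ j (β₀ a) - (a : Fin k → R) j) + (φ j (β₀ b) - (b : Fin k → R) j) := by
            rw [map_add, map_add, Submodule.coe_add, Pi.add_apply]
            ring
          change φ j (β₀ (a + b)) - ((a + b : W) : Fin k → R) j ∈ J ^ (M - c)
          rw [h1]
          exact Ideal.add_mem _ ha hb
        zero_mem' := by
          change φ j (β₀ 0) - ((0 : W) : Fin k → R) j ∈ J ^ (M - c)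
          rw [map_zero, map_zero, Submodule.coe_zero, Pi.zero_apply, sub_zero]
          exact Ideal.zero_mem _
        smul_mem' := by
          intro t a ha
          have h0 : β₀ (t • a) = algebraMap ℂ R t • β₀ a := by
            rw [map_smul, algebraMap_smul]
          have h1 : φ j (β₀ (t • a)) - ((t • a : W) : Fin k → R) j =
              algebraMap ℂ R t * (φ j (β₀ a) - (a : Fin k → R) j) := by
            rw [h0, map_smul, Submodule.coe_smul, Pi.smul_apply, smul_eq_mul,
              Algebra.smul_def]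
            ring
          change φ j (β₀ (t • a)) - ((t • a : W) : Fin k → R) j ∈ J ^ (M - c)
          rw [h1]
          exact Ideal.mul_mem_left _ _ ha }
    have h1 : (⊤ : Submodule ℂ W) ≤ U := by
      rw [← bs.span_eq, Submodule.span_le]
      rintro _ ⟨i, rfl⟩
      change φ j (β₀ (bs i)) - ((bs i : W) : Fin k → R) j ∈ J ^ (M - c)
      rw [Module.Basis.constr_basis]
      exact hs (bs i) j
    exact h1 (show p ∈ (⊤ : Submodule ℂ W) from trivial)
  obtain ⟨β, hβ⟩ := LinearMap.exists_extend β₀
  refine ⟨β, fun p hp j => ?_⟩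
  have h1 := hβ₀ ⟨p, hp⟩ j
  rw [← hβ] at h1
  exact h1

end Pool.Agent.Odp2
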