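import Mathlib

open Polynomial

namespace Pool.Agent.Odp2

variable {P B : Type} [CommRing P] [IsDomain P] [CommRing B] [IsDomain B] [Algebra P B]

omit [IsDomain P] [IsDomain B] in
theorem refl_noeth [IsNoetherianRing P] [Module.Finite P B] :
    IsNoetherian P (B →ₗ[P] P) := by
  obtain ⟨m, s, hs⟩ := Module.Finite.exists_fin (R := P) (M := B)
  let g : (B →ₗ[P] P) →ₗ[P] (Fin m → P) :=
    { toFun := fun φ i => φ (s i)
      map_add' := fun _ _ => rfl
      map_smul' := fun _ _ => rfl }
  refine isNoetherian_of_injective g ?_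
  intro φ ψ h
  apply LinearMap.ext_on_range hs
  intro i
  exact congrFun h i

/-- A linear form on `Hom(B, P)` is the evaluation at an element of `B`. -/
theorem refl_eval [IsNoetherianRing P] [Module.Finite P B] [IsIntegrallyClosed B]
    (hinj : Function.Injective (algebraMap P B)) {d : ℕ} (e : Fin d → B) (D : P) (hD : D ≠ 0)
    (cf : B →ₗ[P] (Fin d → P)) (hcf : ∀ b, D • b = ∑ i, cf b i • e i)
    (ψ : (B →ₗ[P] P) →ₗ[P] P) : ∃ b : B, ∀ φ : B →ₗ[P] P, ψ φ = φ b := by
  classical
  have hN := refl_noeth (P := P) (B := B)
  have hDB : algebraMap P B D ≠ 0 := by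
    intro h
    exact hD (hinj (by rw [h, map_zero]))
  -- the coordinate forms
  let δ : Fin d → (B →ₗ[P] P) := fun i => (LinearMap.proj i).comp cf
  have hδ : ∀ φ : B →ₗ[P] P, D • φ = ∑ i, φ (e i) • δ i := by
    intro φ
    ext b
    rw [LinearMap.smul_apply, ← map_smul, hcf b, map_sum, LinearMap.sum_apply]
    refine Finset.sum_congr rfl fun i _ => ?_
    rw [map_smul, LinearMap.smul_apply, smul_eq_mul, smul_eq_mul, mul_comm]
    rfl
  let g : B := ∑ i, ψ (δ i) • e i
  have hg : ∀ φ : B →ₗ[P] P, φ g = D * ψ φ := by
    intro φ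
    rw [← smul_eq_mul, ← map_smul, hδ φ, map_sum, map_sum]
    refine Finset.sum_congr rfl fun i _ => ?_
    rw [map_smul, map_smul, smul_eq_mul, smul_eq_mul, mul_comm]
  -- the operator g / D on Hom(B, P)
  let mulB : B → (B →ₗ[P] P) →ₗ[P] (B →ₗ[P] P) := fun c =>
    { toFun := fun φ => φ.comp (LinearMap.mulLeft P c)
      map_add' := fun _ _ => rfl
      map_smul' := fun _ _ => rfl }
  have hmulB : ∀ c φ b, mulB c φ b = φ (c * b) := fun _ _ _ => rfl
  let T : (B →ₗ[P] P) →ₗ[P] (B →ₗ[P] P) :=
    { toFun := fun φ =>
        { toFun := fun b => ψ (mulB b φ)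
          map_add' := by
            intro a b
            rw [← map_add]
            congr 1
            ext c
            rw [LinearMap.add_apply, hmulB, hmulB, hmulB, add_mul, map_add]
          map_smul' := by
            intro p b
            rw [RingHom.id_apply, ← map_smul]
            congr 1
            ext c
            rw [LinearMap.smul_apply, hmulB, hmulB, smul_mul_assoc, map_smul] }
      map_add' := by
        intro φ χ
        ext b
        change ψ (mulB b (φ + χ)) = ψ (mulB b φ) + ψ (mulB b χ)
        rw [map_add, map_add]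
      map_smul' := by
        intro p φ
        ext b
        change ψ (mulB b (p • φ)) = p • ψ (mulB b φ)
        rw [map_smul, map_smul] }
  have hT : ∀ φ b, D * T φ b = φ (g * b) := by
    intro φ b
    change D * ψ (mulB b φ) = _
    rw [← hg, hmulB, mul_comm]
  -- T is integral over P
  obtain ⟨p, hpm, hp⟩ := LinearMap.exists_monic_and_aeval_eq_zero P T
  -- D^j T^j = g^j
  have hpow : ∀ (j : ℕ) (φ : B →ₗ[P] P) (b : B), D ^ j * (T ^ j) φ b = φ (g ^ j * b) := by
    intro j
    induction j with
    | zero => intro φ b; simp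
    | succ j ih =>
      intro φ b
      rw [pow_succ' T, pow_succ' D, mul_assoc, mul_comm D, mul_assoc, mul_comm _ D]
      change D ^ j * (D * T ((T ^ j) φ) b) = _
      rw [hT, ih, pow_succ, mul_assoc]
  have hsep : ∀ b : B, (∀ φ : B →ₗ[P] P, φ b = 0) → b = 0 := by
    intro b hb
    have h1 : D • b = 0 := by
      rw [hcf b]
      refine Finset.sum_eq_zero fun i _ => ?_
      have h2 : cf b i = 0 := hb (δ i)
      rw [h2, zero_smul]
    rw [Algebra.smul_def] at h1
    exact (mul_eq_zero.1 h1).resolve_left hDB
  -- the integral equation for g / D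
  let K := FractionRing B
  let z : K := algebraMap B K g / algebraMap B K (algebraMap P B D)
  have hDK : algebraMap B K (algebraMap P B D) ≠ 0 := by
    intro h
    exact hDB (IsFractionRing.injective B K (by rw [h, map_zero]))
  have hz : aeval z p = 0 := by
    have h0 : ∀ φ : B →ₗ[P] P, φ (∑ j ∈ Finset.range (p.natDegree + 1),
        algebraMap P B (p.coeff j * D ^ (p.natDegree - j)) * g ^ j) = 0 := by
      intro φ
      have h1 : (aeval T p) φ = 0 := by rw [hp]; rfl
      rw [aeval_eq_sum_range] at h1
      have h2 := congrArg (fun f : B →ₗ[P] P => D ^ p.natDegree * f 1) h1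
      simp only [LinearMap.sum_apply, LinearMap.smul_apply, LinearMap.zero_apply, mul_zero,
        smul_eq_mul, Finset.mul_sum] at h2
      rw [map_sum, ← h2]
      refine Finset.sum_congr rfl fun j hj => ?_
      have hj' : j ≤ p.natDegree := by
        rw [Finset.mem_range] at hj
        omega
      rw [← Algebra.smul_def, map_smul, smul_eq_mul]
      have h3 := hpow j φ 1
      rw [mul_one] at h3
      rw [← h3]
      have h4 : D ^ p.natDegree = D ^ (p.natDegree - j) * D ^ j := by
        rw [← pow_add]
        congr 1
        omega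
      rw [h4]
      ring
    have h1 := hsep _ h0
    rw [aeval_eq_sum_range]
    have h2 := congrArg (algebraMap B K) h1
    rw [map_zero, map_sum] at h2
    have h3 : algebraMap B K (algebraMap P B D) ^ p.natDegree *
        ∑ i ∈ Finset.range (p.natDegree + 1), p.coeff i • z ^ i = 0 := by
      rw [← h2, Finset.mul_sum]
      refine Finset.sum_congr rfl fun j hj => ?_
      have hj' : j ≤ p.natDegree := by
        rw [Finset.mem_range] at hj
        omega
      rw [Algebra.smul_def, IsScalarTower.algebraMap_apply P B K, map_mul, map_mul, map_mul,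
        map_pow, map_pow, map_pow, div_pow]
      have h4 : algebraMap B K (algebraMap P B D) ^ p.natDegree =
          algebraMap B K (algebraMap P B D) ^ (p.natDegree - j) *
            algebraMap B K (algebraMap P B D) ^ j := by
        rw [← pow_add]
        congr 1
        omega
      rw [h4]
      have h5 : (algebraMap B K (algebraMap P B D)) ^ j ≠ 0 := pow_ne_zero _ hDK
      calc algebraMap B K (algebraMap P B D) ^ (p.natDegree - j) *
            algebraMap B K (algebraMap P B D) ^ j *
            (algebraMap B K (algebraMap P B (p.coeff j)) *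
              (algebraMap B K g ^ j / algebraMap B K (algebraMap P B D) ^ j))
          = algebraMap B K (algebraMap P B (p.coeff j)) *
            algebraMap B K (algebraMap P B D) ^ (p.natDegree - j) *
              (algebraMap B K g ^ j / algebraMap B K (algebraMap P B D) ^ j *
                algebraMap B K (algebraMap P B D) ^ j) := by ring
        _ = _ := by rw [div_mul_cancel₀ _ h5]
    exact (mul_eq_zero.1 h3).resolve_left (pow_ne_zero _ hDK)
  have hint : IsIntegral P z := ⟨p, hpm, by rw [← aeval_def]; exact hz⟩
  have hint' : IsIntegral B z := hint.tower_top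
  obtain ⟨b, hb⟩ := IsIntegrallyClosed.isIntegral_iff.1 hint'
  have hb' : g = algebraMap P B D * b := by
    apply IsFractionRing.injective B K
    rw [map_mul, hb]
    change _ = _ * (_ / _)
    rw [mul_div_cancel₀ _ hDK]
  refine ⟨b, fun φ => ?_⟩
  have h1 := hg φ
  rw [hb', ← Algebra.smul_def, map_smul, smul_eq_mul] at h1
  exact (mul_left_cancel₀ hD h1).symm

/-- Generators of `Hom(B, P)` and a matrix whose kernel is `B`. -/
theorem refl_matrix [IsNoetherianRing P] [Module.Finite P B] [IsIntegrallyClosed B]
    (hinj : Function.Injective (algebraMap P B)) {d : ℕ} (e : Fin d → B) (D : P) (hD : D ≠ 0)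
    (cf : B →ₗ[P] (Fin d → P)) (hcf : ∀ b, D • b = ∑ i, cf b i • e i) :
    ∃ (k : ℕ) (φ : Fin k → (B →ₗ[P] P)) (L : ℕ) (A : Fin L → Fin k → P),
      (∀ f : B →ₗ[P] P, ∃ c : Fin k → P, f = ∑ j, c j • φ j) ∧
      (∀ l b, ∑ j, A l j * φ j b = 0) ∧
      ∀ v : Fin k → P, (∀ l, ∑ j, A l j * v j = 0) → ∃ b : B, ∀ j, φ j b = v j := by
  classical
  have hN := refl_noeth (P := P) (B := B)
  obtain ⟨k, φ, hφ⟩ := Module.Finite.exists_fin (R := P) (M := B →ₗ[P] P)
  let g : (Fin k → P) →ₗ[P] (B →ₗ[P] P) := Fintype.linearCombination P φ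
  have hg : ∀ c, g c = ∑ j, c j • φ j := fun c => Fintype.linearCombination_apply P φ c
  have hgs : ∀ f, ∃ c, g c = f := by
    intro f
    have h1 : f ∈ Submodule.span P (Set.range φ) := by rw [hφ]; trivial
    obtain ⟨c, hc⟩ := (Submodule.mem_span_range_iff_exists_fun P).1 h1
    exact ⟨c, by rw [hg, hc]⟩
  have hfg : (LinearMap.ker g).FG := IsNoetherian.noetherian _
  obtain ⟨L, A, hA⟩ := Submodule.fg_iff_exists_fin_generating_family.1 hfg
  refine ⟨k, φ, L, A, ?_, ?_, ?_⟩
  · intro f
    obtain ⟨c, hc⟩ := hgs f
    exact ⟨c, by rw [← hc, hg]⟩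
  · intro l b
    have h1 : A l ∈ LinearMap.ker g := by
      rw [← hA]
      exact Submodule.subset_span ⟨l, rfl⟩
    rw [LinearMap.mem_ker, hg] at h1
    have h2 := congrArg (fun f : B →ₗ[P] P => f b) h1
    simpa [LinearMap.sum_apply] using h2
  · intro v hv
    let ev : (Fin k → P) →ₗ[P] P :=
      { toFun := fun c => ∑ j, c j * v j
        map_add' := by
          intro a b
          rw [← Finset.sum_add_distrib]
          refine Finset.sum_congr rfl fun j _ => ?_
          rw [Pi.add_apply, add_mul]
        map_smul' := by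
          intro p a
          rw [RingHom.id_apply, smul_eq_mul, Finset.mul_sum]
          refine Finset.sum_congr rfl fun j _ => ?_
          rw [Pi.smul_apply, smul_eq_mul, mul_assoc] }
    have hker : ∀ c, g c = 0 → ev c = 0 := by
      intro c hc
      have h1 : c ∈ Submodule.span P (Set.range A) := by
        rw [hA]
        exact hc
      obtain ⟨t, ht⟩ := (Submodule.mem_span_range_iff_exists_fun P).1 h1
      rw [← ht, map_sum]
      refine Finset.sum_eq_zero fun l _ => ?_
      rw [map_smul]
      change t l • ∑ j, A l j * v j = 0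
      rw [hv l, smul_zero]
    choose s hs using hgs
    have hev : ∀ c c', g c = g c' → ev c = ev c' := by
      intro c c' h
      have := hker (c - c') (by rw [map_sub, h, sub_self])
      rwa [map_sub, sub_eq_zero] at this
    let ψ : (B →ₗ[P] P) →ₗ[P] P :=
      { toFun := fun f => ev (s f)
        map_add' := by
          intro a b
          rw [← map_add]
          apply hev
          rw [map_add, hs, hs, hs]
        map_smul' := by
          intro p a
          rw [RingHom.id_apply, ← map_smul]
          apply hev
          rw [map_smul, hs, hs] }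
    obtain ⟨b, hb⟩ := refl_eval hinj e D hD cf hcf ψ
    refine ⟨b, fun j => ?_⟩
    rw [← hb]
    change ev (s (φ j)) = v j
    have h1 : ev (s (φ j)) = ev (Pi.single j 1) := by
      apply hev
      rw [hs, hg, Finset.sum_eq_single j]
      · rw [Pi.single_eq_same, one_smul]
      · intro i _ hi
        rw [Pi.single_eq_of_ne hi, zero_smul]
      · intro h
        exact absurd (Finset.mem_univ j) h
    rw [h1]
    change ∑ i, (Pi.single j (1 : P) : Fin k → P) i * v i = v j
    rw [Finset.sum_eq_single j]
    · rw [Pi.single_eq_same, one_mul]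
    · intro i _ hi
      rw [Pi.single_eq_of_ne hi, zero_mul]
    · intro h
      exact absurd (Finset.mem_univ j) h

end Pool.Agent.Odp2
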